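import Mathlib

/-!
# There is no (weak) `ℳ`-structure corresponding to `(Ã₁, m)` for `m ≥ 2`

If a weak `ℳ`-structure corresponds to `(Ã₁, m)`, then `1 ∈ 𝓛 = Hom(V, W)²` is a pair `(X, Y)` of
`m × m` matrices, and `𝒜 ∩ ℬ = ℂ 1` says that the pairs `(a, b)` with `X a = b X`, `Y a = b Y` are
scalar.  For `m ≥ 2` there is always a nonzero pair `(a, b)` with these properties and `tr a = 0`:
for invertible `X` take `a` in the commutant of `X⁻¹ Y`, in general approximate `X` by `X + s` and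
use compactness.
-/

set_option autoImplicit false

open Matrix
open scoped Matrix.Norms.Elementwise

namespace Pool.Agent.Results.MP_b9cab9_al.NoKronecker

universe u

/-- The linear data of a weak `ℳ`-structure on `L`: actions of two algebras `A` (on the right) and
`B` (on the left) on `L` and linear maps `iA, iB` of the two algebras into `L`. -/
structure Base (A B L : Type u) [Ring A] [Algebra ℂ A] [Ring B] [Algebra ℂ B]
    [AddCommGroup L] [Module ℂ L] where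
  /-- the left action of `ℬ` -/
  l : B →ₐ[ℂ] Module.End ℂ L
  /-- the right action of `𝒜` -/
  r : Aᵐᵒᵖ →ₐ[ℂ] Module.End ℂ L
  /-- the inclusion of `𝒜` -/
  iA : A →ₗ[ℂ] L
  /-- the inclusion of `ℬ` -/
  iB : B →ₗ[ℂ] L

/-- The algebra `⨁ End(ℂ^{d i})`. -/
def MatProd {r : ℕ} (d : Fin r → ℕ) : Type := ∀ i, Matrix (Fin (d i)) (Fin (d i)) ℂ

instance {r : ℕ} (d : Fin r → ℕ) : Ring (MatProd d) :=
  inferInstanceAs (Ring (∀ i, Matrix (Fin (d i)) (Fin (d i)) ℂ))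

instance {r : ℕ} (d : Fin r → ℕ) : Algebra ℂ (MatProd d) :=
  inferInstanceAs (Algebra ℂ (∀ i, Matrix (Fin (d i)) (Fin (d i)) ℂ))

/-- The space `⨁ Hom(ℂ^{m i}, ℂ^{n j})^{mult i j}`. -/
def HomSum {r s : ℕ} (mult : Fin r → Fin s → ℕ) (m : Fin r → ℕ) (n : Fin s → ℕ) : Type :=
  ∀ i j, Fin (mult i j) → Matrix (Fin (n j)) (Fin (m i)) ℂ

instance {r s : ℕ} (mult : Fin r → Fin s → ℕ) (m : Fin r → ℕ) (n : Fin s → ℕ) :
    AddCommGroup (HomSum mult m n) :=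
  inferInstanceAs (AddCommGroup (∀ i j, Fin (mult i j) → Matrix (Fin (n j)) (Fin (m i)) ℂ))

instance {r s : ℕ} (mult : Fin r → Fin s → ℕ) (m : Fin r → ℕ) (n : Fin s → ℕ) :
    Module ℂ (HomSum mult m n) :=
  inferInstanceAs (Module ℂ (∀ i j, Fin (mult i j) → Matrix (Fin (n j)) (Fin (m i)) ℂ))

section

variable {A B L : Type u} [Ring A] [Algebra ℂ A] [Ring B] [Algebra ℂ B]
    [AddCommGroup L] [Module ℂ L]

/-- The element `b v`. -/
def Base.lmul (M : Base A B L) (b : B) (v : L) : L := M.l b v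

/-- The element `v a`. -/
def Base.rmul (M : Base A B L) (v : L) (a : A) : L := M.r (MulOpposite.op a) v

/-- The element of `𝒜 ⊆ 𝓛` given by `a`. -/
def Base.ofA (M : Base A B L) (a : A) : L := M.iA a

/-- The element of `ℬ ⊆ 𝓛` given by `b`. -/
def Base.ofB (M : Base A B L) (b : B) : L := M.iB b

/-- The two actions commute. -/
def Base.Commute (M : Base A B L) : Prop :=
  ∀ (a : A) (b : B) (v : L), M.lmul b (M.rmul v a) = M.rmul (M.lmul b v) a

/-- `𝒜` and `ℬ` are subspaces of `𝓛`: the maps `ofA` and `ofB` are injective. -/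
def Base.Injective (M : Base A B L) : Prop :=
  Function.Injective M.ofA ∧ Function.Injective M.ofB

/-- `𝒜 ∩ ℬ = ℂ 1`. -/
def Base.Inter (M : Base A B L) : Prop :=
  M.ofA 1 = M.ofB 1 ∧ ∀ a b, M.ofA a = M.ofB b → ∃ c : ℂ, M.ofA a = c • M.ofA 1

/-- The actions restrict to the multiplications of the two algebras. -/
def Base.Restrict (M : Base A B L) : Prop :=
  (∀ a a' : A, M.rmul (M.ofA a) a' = M.ofA (a * a')) ∧
  (∀ b b' : B, M.lmul b (M.ofB b') = M.ofB (b * b'))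

/-- The values of a bilinear form. -/
def pair (f : L →ₗ[ℂ] L →ₗ[ℂ] ℂ) (v w : L) : ℂ := f v w

/-- The bilinear form `f` is symmetric and nondegenerate. -/
def FormRegular (f : L →ₗ[ℂ] L →ₗ[ℂ] ℂ) : Prop :=
  (∀ v w, pair f v w = pair f w v) ∧ ∀ v, (∀ w, pair f v w = 0) → v = 0

/-- `(a, a') = (b, b') = 0`. -/
def Base.FormIsotropic (M : Base A B L) (f : L →ₗ[ℂ] L →ₗ[ℂ] ℂ) : Prop :=
  (∀ a a', pair f (M.ofA a) (M.ofA a') = 0) ∧ ∀ b b', pair f (M.ofB b) (M.ofB b') = 0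

/-- `(b b', v) = (b, b' v)` and `(v, a a') = (v a, a')`. -/
def Base.FormInvariant (M : Base A B L) (f : L →ₗ[ℂ] L →ₗ[ℂ] ℂ) : Prop :=
  (∀ b b' v, pair f (M.ofB (b * b')) v = pair f (M.ofB b) (M.lmul b' v)) ∧
  ∀ a a' v, pair f v (M.ofA (a * a')) = pair f (M.rmul v a) (M.ofA a')

/-- The data `M` form a weak `ℳ`-structure. -/
def Base.IsWeakMStructure (M : Base A B L) : Prop :=
  M.Commute ∧ M.Injective ∧ M.Inter ∧ M.Restrict ∧
    ∃ f : L →ₗ[ℂ] L →ₗ[ℂ] ℂ, FormRegular f ∧ M.FormIsotropic f ∧ M.FormInvariant f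

/-- `𝒜 = ⨁ End(V_i)`, `ℬ = ⨁ End(W_j)`, `𝓛 = ⨁ Hom(V_i, W_j)^{a_ij}` as a module over both
algebras, with `dim V_i = m i`, `dim W_j = n j` (`i < r`, `j < s`). -/
def Base.HasType (M : Base A B L) {r s : ℕ} (mult : Fin r → Fin s → ℕ) (m : Fin r → ℕ)
    (n : Fin s → ℕ) : Prop :=
  ∃ (φ : A ≃ₐ[ℂ] MatProd m) (ψ : B ≃ₐ[ℂ] MatProd n) (θ : L ≃ₗ[ℂ] HomSum mult m n),
    (∀ b v i j e, θ (M.lmul b v) i j e = ψ b j * θ v i j e) ∧
    (∀ a v i j e, θ (M.rmul v a) i j e = θ v i j e * φ a i)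

/-- The type which corresponds to `(Ã₁, m)`: one `V`, one `W`, multiplicity `2`, dimension vector
`m J = (m, m)`. -/
def Base.CorrespondsToA1 (M : Base A B L) (m : ℕ) : Prop :=
  M.HasType (fun (_ _ : Fin 1) => 2) (fun _ => m) (fun _ => m)

end

/-! ### Pairs of matrices -/

lemma exists_comm {m : ℕ} (hm : 2 ≤ m) (N : Matrix (Fin m) (Fin m) ℂ) :
    ∃ a : Matrix (Fin m) (Fin m) ℂ, a ≠ 0 ∧ a.trace = 0 ∧ N * a = a * N := by
  have hm0 : (m : ℂ) ≠ 0 := by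
    rw [Nat.cast_ne_zero]; omega
  by_cases h : N = (N.trace / m) • (1 : Matrix (Fin m) (Fin m) ℂ)
  · refine ⟨Matrix.single ⟨0, by omega⟩ ⟨1, by omega⟩ 1, ?_, ?_, ?_⟩
    · intro h0
      have := congrFun (congrFun h0 ⟨0, by omega⟩) ⟨1, by omega⟩
      simp at this
    · exact Matrix.trace_single_eq_of_ne _ _ _ (by simp)
    · rw [h]
      simp
  · refine ⟨N - (N.trace / m) • 1, sub_ne_zero.mpr h, ?_, ?_⟩
    · rw [Matrix.trace_sub, Matrix.trace_smul, Matrix.trace_one]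
      simp only [Fintype.card_fin, smul_eq_mul]
      field_simp
      ring
    · rw [mul_sub, sub_mul]
      simp

lemma exists_pair_of_det {m : ℕ} (hm : 2 ≤ m) (X Y : Matrix (Fin m) (Fin m) ℂ) (hX : X.det ≠ 0) :
    ∃ u : Matrix (Fin m) (Fin m) ℂ × Matrix (Fin m) (Fin m) ℂ, ‖u‖ = 1 ∧ u.1.trace = 0 ∧
      X * u.1 = u.2 * X ∧ Y * u.1 = u.2 * Y := by
  have hXu : IsUnit X.det := isUnit_iff_ne_zero.mpr hX
  obtain ⟨a, ha, htr, hc⟩ := exists_comm hm (X⁻¹ * Y)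
  obtain ⟨u, hu⟩ : ∃ u : Matrix (Fin m) (Fin m) ℂ × Matrix (Fin m) (Fin m) ℂ,
    u = (a, X * a * X⁻¹) := ⟨_, rfl⟩
  have hu0 : u ≠ 0 := by
    rw [hu]
    intro h
    exact ha (Prod.mk.inj h).1
  have h1 : u.1.trace = 0 := by rw [hu]; exact htr
  have h2 : X * u.1 = u.2 * X := by
    rw [hu]
    simp only
    rw [mul_assoc (X * a), Matrix.nonsing_inv_mul X hXu, mul_one]
  have h3 : Y * u.1 = u.2 * Y := by
    rw [hu]
    simp only
    rw [mul_assoc (X * a), mul_assoc X a, ← hc, ← mul_assoc X, ← mul_assoc X,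
      Matrix.mul_nonsing_inv X hXu, one_mul]
  have hn : ‖u‖ ≠ 0 := norm_ne_zero_iff.mpr hu0
  refine ⟨((‖u‖⁻¹ : ℝ) : ℂ) • u, ?_, ?_, ?_, ?_⟩
  · rw [norm_smul, Complex.norm_real, norm_inv, norm_norm, inv_mul_cancel₀ hn]
  · rw [Prod.smul_fst, Matrix.trace_smul, h1, smul_zero]
  · rw [Prod.smul_fst, Prod.smul_snd, mul_smul_comm, smul_mul_assoc, h2]
  · rw [Prod.smul_fst, Prod.smul_snd, mul_smul_comm, smul_mul_assoc, h3]

lemma finite_bad {m : ℕ} (X : Matrix (Fin m) (Fin m) ℂ) :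
    {s : ℝ | (X + (s : ℂ) • (1 : Matrix (Fin m) (Fin m) ℂ)).det = 0}.Finite := by
  have h1 : {z : ℂ | ((-X).charpoly).eval z = 0}.Finite := by
    have := Polynomial.finite_setOfPred_isRoot (p := (-X).charpoly) (Matrix.charpoly_monic _).ne_zero
    exact this
  have h2 : {s : ℝ | (X + (s : ℂ) • (1 : Matrix (Fin m) (Fin m) ℂ)).det = 0}
      = (fun s : ℝ => (s : ℂ)) ⁻¹' {z : ℂ | ((-X).charpoly).eval z = 0} := by
    ext s
    simp only [Set.mem_ofPred_eq, Set.mem_preimage]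
    rw [Matrix.eval_charpoly, sub_neg_eq_add, add_comm, Matrix.smul_one_eq_diagonal]
    rfl
  rw [h2]
  exact h1.preimage Complex.ofReal_injective.injOn

lemma exists_pair {m : ℕ} (hm : 2 ≤ m) (X Y : Matrix (Fin m) (Fin m) ℂ) :
    ∃ u : Matrix (Fin m) (Fin m) ℂ × Matrix (Fin m) (Fin m) ℂ, ‖u‖ = 1 ∧ u.1.trace = 0 ∧
      X * u.1 = u.2 * X ∧ Y * u.1 = u.2 * Y := by
  let T : Set (ℝ × (Matrix (Fin m) (Fin m) ℂ × Matrix (Fin m) (Fin m) ℂ)) := {p | (p.2.1.trace = 0 ∧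
      (X + (p.1 : ℂ) • (1 : Matrix (Fin m) (Fin m) ℂ)) * p.2.1
        = p.2.2 * (X + (p.1 : ℂ) • (1 : Matrix (Fin m) (Fin m) ℂ))) ∧ Y * p.2.1 = p.2.2 * Y}
  have hTclosed : IsClosed T := by
    refine IsClosed.inter (IsClosed.inter ?_ ?_) ?_
    · refine isClosed_eq ?_ continuous_const
      exact (continuous_fst.comp continuous_snd).matrix_trace
    · refine isClosed_eq ?_ ?_
      · fun_prop
      · fun_prop
    · refine isClosed_eq ?_ ?_
      · fun_prop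
      · fun_prop
  have hK : IsCompact ((Set.Icc (0 : ℝ) 1 ×ˢ Metric.sphere (0 : Matrix (Fin m) (Fin m) ℂ × Matrix (Fin m) (Fin m) ℂ) 1) ∩ T) :=
    (isCompact_Icc.prod (isCompact_sphere _ _)).inter_right hTclosed
  have hclosed : IsClosed (Prod.fst '' ((Set.Icc (0 : ℝ) 1 ×ˢ Metric.sphere (0 : Matrix (Fin m) (Fin m) ℂ × Matrix (Fin m) (Fin m) ℂ) 1) ∩ T)) :=
    (hK.image continuous_fst).isClosed
  have h0 : (0 : ℝ) ∈ closure (Prod.fst '' ((Set.Icc (0 : ℝ) 1 ×ˢ Metric.sphere (0 : Matrix (Fin m) (Fin m) ℂ × Matrix (Fin m) (Fin m) ℂ) 1) ∩ T)) := by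
    rw [Metric.mem_closure_iff]
    intro ε hε
    have hinf : (Set.Ioo (0 : ℝ) (min ε 1)).Infinite := Set.Ioo_infinite (by positivity)
    obtain ⟨s, hs, hbad⟩ := hinf.exists_notMem_finite (finite_bad X)
    obtain ⟨u, hu1, hu2, hu3, hu4⟩ := exists_pair_of_det hm
      (X + (s : ℂ) • (1 : Matrix (Fin m) (Fin m) ℂ)) Y hbad
    have hs1 : s < 1 := lt_of_lt_of_le hs.2 (min_le_right _ _)
    have hs2 : s < ε := lt_of_lt_of_le hs.2 (min_le_left _ _)
    refine ⟨s, ⟨(s, u), ⟨⟨⟨hs.1.le, hs1.le⟩, ?_⟩, ⟨⟨hu2, hu3⟩, hu4⟩⟩, rfl⟩, ?_⟩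
    · simpa using hu1
    · rw [dist_comm, Real.dist_eq, sub_zero, abs_of_pos hs.1]
      exact hs2
  rw [hclosed.closure_eq] at h0
  obtain ⟨⟨s, u⟩, ⟨⟨_, hu1⟩, ⟨⟨hu2, hu3⟩, hu4⟩⟩, hs⟩ := h0
  simp only at hs hu1 hu2 hu3 hu4
  subst hs
  refine ⟨u, by simpa using hu1, hu2, ?_, hu4⟩
  simpa using hu3

/-- **Main theorem.**  For `m ≥ 2` there is no weak `ℳ`-structure, and hence no `ℳ`-structure,
which corresponds to `(Ã₁, m)`. -/
theorem result (m : ℕ) (hm : 2 ≤ m) (A B L : Type u) [Ring A] [Algebra ℂ A] [Ring B] [Algebra ℂ B]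
    [AddCommGroup L] [Module ℂ L] (M : Base A B L) (hcorr : M.CorrespondsToA1 m) :
    ¬ M.IsWeakMStructure := by
  rintro ⟨_, ⟨injA, injB⟩, ⟨one_eq, inter⟩, ⟨actA, actB⟩, _⟩
  obtain ⟨φ, ψ, θ, hψ, hφ⟩ := hcorr
  obtain ⟨u, hu1, hu2, hu3, hu4⟩ := exists_pair hm (θ (M.ofA 1) 0 0 0) (θ (M.ofA 1) 0 0 1)
  obtain ⟨a, ha⟩ : ∃ a : A, φ a = fun _ => u.1 := ⟨φ.symm (fun _ => u.1), φ.apply_symm_apply _⟩
  obtain ⟨b, hb⟩ : ∃ b : B, ψ b = fun _ => u.2 := ⟨ψ.symm (fun _ => u.2), ψ.apply_symm_apply _⟩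
  have hA : M.rmul (M.ofA 1) a = M.ofA a := by rw [actA, one_mul]
  have hB : M.lmul b (M.ofA 1) = M.ofB b := by rw [one_eq, actB, mul_one]
  have hAB : M.ofA a = M.ofB b := by
    rw [← hA, ← hB]
    apply θ.injective
    funext i j e
    rw [hφ, hψ, ha, hb]
    have hi : i = 0 := Subsingleton.elim _ _
    have hj : j = 0 := Subsingleton.elim _ _
    subst hi hj
    fin_cases e
    · exact hu3
    · exact hu4
  obtain ⟨c, hc⟩ := inter a b hAB
  have hc' : M.ofA a = M.ofA (c • 1) := by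
    rw [hc]
    exact (M.iA.map_smul c 1).symm
  have hac : a = c • 1 := injA hc'
  have h1 : u.1 = c • (1 : Matrix (Fin m) (Fin m) ℂ) := by
    have h2 := congrFun ha 0
    have h3 : φ a = c • (1 : MatProd fun _ : Fin 1 => m) := by rw [hac, map_smul, map_one]
    rw [h3] at h2
    exact h2.symm
  have hc0 : c = 0 := by
    rw [h1, Matrix.trace_smul, Matrix.trace_one, Fintype.card_fin, smul_eq_mul] at hu2
    rcases mul_eq_zero.mp hu2 with h | h
    · exact h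
    · exfalso
      have : m = 0 := by exact_mod_cast h
      omega
  have hu10 : u.1 = 0 := by rw [h1, hc0, zero_smul]
  have ha0 : a = 0 := by rw [hac, hc0, zero_smul]
  have hb0 : b = 0 := by
    apply injB
    rw [← hAB, ha0]
    exact (M.iA.map_zero).trans (M.iB.map_zero).symm
  have hu20 : u.2 = 0 := by
    have h2 := congrFun hb 0
    have h3 : ψ b = 0 := by rw [hb0, map_zero]
    rw [h3] at h2
    exact h2.symm
  have : u = 0 := Prod.ext hu10 hu20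
  rw [this, norm_zero] at hu1
  exact zero_ne_one hu1

end Pool.Agent.Results.MP_b9cab9_al.NoKronecker
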